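import Pool.Agent.Lib.FW.SpecI
import Pool.Agent.Lib.ZD.Basic

/-!
# The pole of the zeta function: the sum over the primes (from `ZD.Dn_univ`)

This is the conclusion of `S_IAn`, without hypotheses.
-/

open scoped Pointwise Topology
open Filter Asymptotics IsDedekindDomain NumberField

noncomputable section

namespace Pool.Agent.FW

open Pool.Agent.MuZ

/-- The conclusion of `S_IAn`. -/
theorem tIAnD : ∀ (E : Type) [Field E] [NumberField E],
    (fun s : ℝ => (∑' v : HeightOneSpectrum (𝓞 E), nrI E v s) - Real.log (1 / (s - 1)))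
      =O[𝓝[>] 1] (fun _ => (1 : ℝ)) := by
  intro E _ _
  obtain ⟨C, hC⟩ := ZD.Dn_univ (K := E)
  refine IsBigO.of_bound C ?_
  filter_upwards [Ioc_mem_nhdsGT (show (1 : ℝ) < 2 by norm_num)] with s hs
  have h1 := hC (s - 1) (by linarith [hs.1]) (by linarith [hs.2])
  have h2 : ZD.pS E Set.univ (s - 1) = ∑' v : HeightOneSpectrum (𝓞 E), nrI E v s := by
    unfold ZD.pS
    refine tsum_congr fun v => ?_
    rw [Set.indicator_univ, add_sub_cancel]
    rfl
  rw [h2, one_mul] at h1
  rw [norm_one, mul_one, Real.norm_eq_abs]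
  exact h1

theorem tIAn : S_IAn := fun _ _ _ _ => tIAnD

end Pool.Agent.FW
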