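import Pool.Agent.Lib.FW.SpecI

open scoped Pointwise
open IsDedekindDomain NumberField

namespace Pool.Agent.FW
open Pool.Agent.MuZ

namespace ICntAux

section loc

variable (L : Type) [Field L] [NumberField L] [IsGalois ℚ L] (D : Subgroup Gal(L/ℚ))

theorem gZ : IsGaloisGroup Gal(L/ℚ) ℤ (𝓞 L) := IsGaloisGroup.of_isFractionRing _ _ _ ℚ L

theorem gE0 : IsGaloisGroup D (IntermediateField.fixedField D) L :=
  IsGaloisGroup.subgroup Gal(L/ℚ) ℚ L D

theorem gE : IsGaloisGroup D (𝓞 (IntermediateField.fixedField D)) (𝓞 L) := by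
  have := gE0 L D
  exact IsGaloisGroup.of_isFractionRing _ _ _ (IntermediateField.fixedField D) L

variable {L} {p : ℕ} [hp : Fact p.Prime]

theorem over_p {R : Type} [CommRing R] (P : Ideal R) [hP : P.IsPrime]
    (h : (p : R) ∈ P) : P.LiesOver (Ideal.span {(p : ℤ)}) := by
  have hpp : Prime (p : ℤ) := Nat.prime_iff_prime_int.mp hp.out
  have hmax : (Ideal.span {(p : ℤ)}).IsMaximal :=
    ((Ideal.span_singleton_prime hpp.ne_zero).2 hpp).isMaximal (by simpa using hpp.ne_zero)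
  refine ⟨hmax.eq_of_le (Ideal.IsPrime.ne_top inferInstance) ?_⟩
  rw [Ideal.span_singleton_le_iff_mem, Ideal.mem_comap]
  simpa using h

omit hp in
theorem mem_p {R : Type} [CommRing R] (P : Ideal R)
    (h : P.LiesOver (Ideal.span {(p : ℤ)})) : (p : R) ∈ P := by
  have h1 : (p : ℤ) ∈ Ideal.span {(p : ℤ)} := Ideal.subset_span rfl
  rw [h.over] at h1
  simpa using h1

theorem st_G (P : Ideal (𝓞 L)) [P.IsPrime] (h : (p : 𝓞 L) ∈ P) (hI : P.inertia Gal(L/ℚ) = ⊥) :
    Nat.card (MulAction.stabilizer Gal(L/ℚ) P) = P.inertiaDeg ℤ := by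
  have := gZ L
  have := over_p (p := p) P h
  have hpp : Prime (p : ℤ) := Nat.prime_iff_prime_int.mp hp.out
  have : (Ideal.span {(p : ℤ)}).IsPrime := (Ideal.span_singleton_prime hpp.ne_zero).2 hpp
  rw [Ideal.card_stabilizer_eq_card_inertia_mul_finrank (Ideal.span {(p : ℤ)}) P, hI]
  simp

omit [IsGalois ℚ L] in
theorem v_ne (P : Ideal (𝓞 L)) [P.IsPrime] (h : (p : 𝓞 L) ∈ P) :
    P.under (𝓞 (IntermediateField.fixedField D)) ≠ ⊥ := by
  have hv : (p : 𝓞 (IntermediateField.fixedField D)) ∈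
      P.under (𝓞 (IntermediateField.fixedField D)) := by
    rw [Ideal.mem_comap]
    simpa using h
  intro h0
  rw [h0, Ideal.mem_bot] at hv
  exact hp.out.ne_zero (by exact_mod_cast hv)

omit [IsGalois ℚ L] in
theorem perf (v : Ideal (𝓞 (IntermediateField.fixedField D))) [v.IsPrime] (hne : v ≠ ⊥) :
    PerfectField v.ResidueField := by
  have hfin : Finite (𝓞 (IntermediateField.fixedField D) ⧸ v) :=
    Ideal.finiteQuotientOfFreeOfNeBot _ hne
  infer_instance

omit [IsGalois ℚ L] in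
theorem in_D (P : Ideal (𝓞 L)) (hI : P.inertia Gal(L/ℚ) = ⊥) : Nat.card (P.inertia D) = 1 := by
  have h0 : P.inertia D = ⊥ := by
    rw [eq_bot_iff]
    intro x hx
    have h1 : (x : Gal(L/ℚ)) ∈ P.inertia Gal(L/ℚ) := hx
    rw [hI, Subgroup.mem_bot] at h1
    rw [Subgroup.mem_bot]
    exact Subtype.ext h1
  rw [h0]
  simp

theorem st_D (P : Ideal (𝓞 L)) [P.IsPrime] (h : (p : 𝓞 L) ∈ P) (hI : P.inertia Gal(L/ℚ) = ⊥) :
    Nat.card (MulAction.stabilizer Gal(L/ℚ) P ⊓ D : Subgroup Gal(L/ℚ)) =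
      P.inertiaDeg (𝓞 (IntermediateField.fixedField D)) := by
  have := gE L D
  have := perf D _ (v_ne D P h)
  have h1 := Ideal.card_stabilizer_eq_card_inertia_mul_finrank (G := D)
    (P.under (𝓞 (IntermediateField.fixedField D))) P
  rw [in_D D P hI, one_mul] at h1
  rw [← h1]
  refine Nat.card_congr ⟨fun x => ⟨⟨x.1, x.2.2⟩, x.2.1⟩, fun x => ⟨x.1.1, x.2, x.1.2⟩,
    fun x => rfl, fun x => rfl⟩

theorem nrm_iff (P : Ideal (𝓞 L)) [P.IsPrime] (h : (p : 𝓞 L) ∈ P)
    (hI : P.inertia Gal(L/ℚ) = ⊥) :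
    Ideal.absNorm (P.under (𝓞 (IntermediateField.fixedField D))) = p ↔
      MulAction.stabilizer Gal(L/ℚ) P ≤ D := by
  have hpp : Prime (p : ℤ) := Nat.prime_iff_prime_int.mp hp.out
  have hv : (p : 𝓞 (IntermediateField.fixedField D)) ∈
      P.under (𝓞 (IntermediateField.fixedField D)) := by
    rw [Ideal.mem_comap]
    simpa using h
  have h1 := over_p _ hv
  have h2 := Ideal.absNorm_pow_inertiaDeg (Ideal.span {(p : ℤ)})
    (P.under (𝓞 (IntermediateField.fixedField D)))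
  have h3 : (Ideal.span {(p : ℤ)}).absNorm = p := by simp
  rw [h3] at h2
  have h4 := Ideal.inertiaDeg_tower (R := ℤ) (P.under (𝓞 (IntermediateField.fixedField D))) P
  rw [← st_G P h hI, ← st_D D P h hI] at h4
  rw [← h2]
  constructor
  · intro h5
    have h6 : (P.under (𝓞 (IntermediateField.fixedField D))).inertiaDeg ℤ = 1 :=
      Nat.pow_right_injective hp.out.two_le (by simpa using h5)
    rw [h6, one_mul] at h4
    have h7 : MulAction.stabilizer Gal(L/ℚ) P ⊓ D = MulAction.stabilizer Gal(L/ℚ) P :=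
      Subgroup.eq_of_le_of_card_ge inf_le_left (le_of_eq h4)
    exact inf_eq_left.1 h7
  · intro h5
    rw [inf_eq_left.2 h5] at h4
    have h8 : 0 < Nat.card (MulAction.stabilizer Gal(L/ℚ) P) := Nat.card_pos
    have h6 : (P.under (𝓞 (IntermediateField.fixedField D))).inertiaDeg ℤ = 1 :=
      Nat.eq_of_mul_eq_mul_right h8 (by rw [← h4, one_mul])
    rw [h6, pow_one]

open Classical in
theorem fib (hI : ∀ P : Ideal (𝓞 L), P.IsPrime → (p : 𝓞 L) ∈ P → P.inertia Gal(L/ℚ) = ⊥)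
    (v : Ideal (𝓞 (IntermediateField.fixedField D))) [v.IsPrime] (hv : Ideal.absNorm v = p)
    (S : Finset (Ideal (𝓞 L)))
    (hS : ∀ P, P ∈ S ↔ P.IsPrime ∧ (p : 𝓞 L) ∈ P) :
    ∑ P ∈ S with P.under (𝓞 (IntermediateField.fixedField D)) = v,
      Nat.card (MulAction.stabilizer Gal(L/ℚ) P) = Nat.card D := by
  have hne : v ≠ ⊥ := by
    rintro rfl
    rw [Ideal.absNorm_bot] at hv
    exact hp.out.ne_zero hv.symm
  have hpv : (p : 𝓞 (IntermediateField.fixedField D)) ∈ v := by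
    rw [← hv]
    exact Ideal.absNorm_mem v
  have hset : ((S.filter fun P => P.under (𝓞 (IntermediateField.fixedField D)) = v :
      Finset (Ideal (𝓞 L))) : Set (Ideal (𝓞 L))) = v.primesOver (𝓞 L) := by
    ext P
    rw [Finset.mem_coe, Finset.mem_filter, hS]
    constructor
    · rintro ⟨⟨h1, h2⟩, h3⟩
      exact ⟨h1, ⟨h3.symm⟩⟩
    · rintro ⟨h1, h2⟩
      refine ⟨⟨h1, ?_⟩, h2.over.symm⟩
      have h3 : (p : 𝓞 (IntermediateField.fixedField D)) ∈
          P.under (𝓞 (IntermediateField.fixedField D)) := by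
        rw [← h2.over]
        exact hpv
      rw [Ideal.mem_comap] at h3
      simpa using h3
  have hcard : (S.filter fun P => P.under (𝓞 (IntermediateField.fixedField D)) = v).card =
      (v.primesOver (𝓞 L)).ncard := by
    rw [← hset, Set.ncard_coe_finset]
  have := gE L D
  have := perf D v hne
  have hmul : ∀ P ∈ S.filter (fun P => P.under (𝓞 (IntermediateField.fixedField D)) = v),
      (v.primesOver (𝓞 L)).ncard * Nat.card (MulAction.stabilizer Gal(L/ℚ) P) =
        Nat.card D := by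
    intro P hP
    rw [Finset.mem_filter, hS] at hP
    obtain ⟨⟨h1, h2⟩, h3⟩ := hP
    have : P.LiesOver v := ⟨h3.symm⟩
    have h4 := Ideal.ncard_primesOver_mul_card_inertia_mul_finrank (G := D) v P
    rw [in_D D P (hI P h1 h2), mul_one, ← st_D D P h2 (hI P h1 h2)] at h4
    rw [← h4]
    have h5 := (nrm_iff D P h2 (hI P h1 h2)).1 (by rw [h3, hv])
    rw [inf_eq_left.2 h5]
  have hpos : 0 < (v.primesOver (𝓞 L)).ncard := by
    rw [← hcard, Finset.card_pos]
    obtain ⟨P⟩ := (inferInstance : Nonempty (v.primesOver (𝓞 L)))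
    refine ⟨P.1, ?_⟩
    exact Finset.mem_coe.1 (hset.symm.subset P.2)
  refine Nat.eq_of_mul_eq_mul_left hpos ?_
  rw [Finset.mul_sum, Finset.sum_congr rfl hmul, Finset.sum_const, hcard, smul_eq_mul]

end loc

theorem finS (L : Type) [Field L] [NumberField L] {p : ℕ} (hp : p.Prime) :
    {P : Ideal (𝓞 L) | P.IsPrime ∧ (p : 𝓞 L) ∈ P}.Finite := by
  have : Fact p.Prime := ⟨hp⟩
  have hpp : Prime (p : ℤ) := Nat.prime_iff_prime_int.mp hp
  have : (Ideal.span {(p : ℤ)}).IsPrime := (Ideal.span_singleton_prime hpp.ne_zero).2 hpp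
  refine Set.Finite.subset (Algebra.QuasiFinite.finite_primesOver
    (S := 𝓞 L) (Ideal.span {(p : ℤ)})) ?_
  rintro P ⟨h1, h2⟩
  exact ⟨h1, over_p P h2⟩

theorem finT (E : Type) [Field E] [NumberField E] {p : ℕ} (hp : p.Prime) :
    {v : Ideal (𝓞 E) | v.IsPrime ∧ Ideal.absNorm v = p}.Finite := by
  refine (finS E hp).subset ?_
  rintro v ⟨h1, h2⟩
  refine ⟨h1, ?_⟩
  rw [← h2]
  exact Ideal.absNorm_mem v

end ICntAux

open Classical in
open ICntAux in
theorem tICnt : S_ICnt := by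
  intro L _ _ _ D p hp hI
  have : Fact p.Prime := ⟨hp⟩
  have hI' : ∀ P : Ideal (𝓞 L), P.IsPrime → (p : 𝓞 L) ∈ P → P.inertia Gal(L/ℚ) = ⊥ := hI
  have : Finite Gal(L/ℚ) := inferInstance
  have : Fintype (Subgroup Gal(L/ℚ)) := Fintype.ofFinite _
  set S : Finset (Ideal (𝓞 L)) := (finS L hp).toFinset with hSdef
  have hS : ∀ P, P ∈ S ↔ P.IsPrime ∧ (p : 𝓞 L) ∈ P := fun P => by simp [hSdef]
  set T : Finset (Ideal (𝓞 (IntermediateField.fixedField D))) :=
    (finT (IntermediateField.fixedField D) hp).toFinset with hTdef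
  have hT : ∀ v, v ∈ T ↔ v.IsPrime ∧ Ideal.absNorm v = p := fun v => by simp [hTdef]
  have hnSt : ∀ D' : Subgroup Gal(L/ℚ), nSt L p D' =
      (S.filter fun P => MulAction.stabilizer Gal(L/ℚ) P = D').card := by
    intro D'
    rw [nSt]
    refine Nat.subtype_card _ fun P => ?_
    rw [Finset.mem_filter, hS, and_assoc]
  have hnP1 : nP1 (IntermediateField.fixedField D) p = T.card := by
    rw [nP1]
    exact Nat.subtype_card _ hT
  have hL : ∑ᶠ (D' : Subgroup Gal(L/ℚ)) (_ : D' ≤ D), Nat.card D' * nSt L p D' =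
      ∑ P ∈ S with MulAction.stabilizer Gal(L/ℚ) P ≤ D,
        Nat.card (MulAction.stabilizer Gal(L/ℚ) P) := by
    refine (finsum_mem_eq_finite_toFinset_sum (fun D' : Subgroup Gal(L/ℚ) =>
      Nat.card D' * nSt L p D') (Set.toFinite {D' : Subgroup Gal(L/ℚ) | D' ≤ D})).trans ?_
    rw [← Finset.sum_fiberwise_of_maps_to (s := S.filter fun P =>
      MulAction.stabilizer Gal(L/ℚ) P ≤ D)
      (t := (Set.toFinite {D' : Subgroup Gal(L/ℚ) | D' ≤ D}).toFinset)
      (g := fun P => MulAction.stabilizer Gal(L/ℚ) P)]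
    · refine Finset.sum_congr rfl fun D' hD' => ?_
      have hD : D' ≤ D := by simpa using hD'
      rw [hnSt, Finset.filter_filter, mul_comm, ← smul_eq_mul, ← Finset.sum_const]
      refine Finset.sum_congr ?_ ?_
      · ext P
        rw [Finset.mem_filter, Finset.mem_filter]
        constructor
        · rintro ⟨h1, h2⟩
          exact ⟨h1, by rw [h2]; exact hD, h2⟩
        · rintro ⟨h1, _, h2⟩
          exact ⟨h1, h2⟩
      · intro P hP
        rw [(Finset.mem_filter.1 hP).2.2]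
    · intro P hP
      simpa using (Finset.mem_filter.1 hP).2
  rw [hL, hnP1, mul_comm, ← smul_eq_mul, ← Finset.sum_const]
  rw [← Finset.sum_fiberwise_of_maps_to (s := S.filter fun P =>
      MulAction.stabilizer Gal(L/ℚ) P ≤ D) (t := T)
      (g := fun P => P.under (𝓞 (IntermediateField.fixedField D)))]
  · refine Finset.sum_congr rfl fun v hv => ?_
    rw [hT] at hv
    have := hv.1
    rw [← fib D hI v hv.2 S hS, Finset.filter_filter]
    refine Finset.sum_congr ?_ fun _ _ => rfl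
    ext P
    rw [Finset.mem_filter, Finset.mem_filter]
    constructor
    · rintro ⟨h1, _, h2⟩
      exact ⟨h1, h2⟩
    · rintro ⟨h1, h2⟩
      have h3 := (hS P).1 h1
      have := h3.1
      exact ⟨h1, (nrm_iff D P h3.2 (hI P h3.1 h3.2)).1 (by rw [h2]; exact hv.2), h2⟩
  · intro P hP
    rw [Finset.mem_filter] at hP
    have h3 := (hS P).1 hP.1
    have := h3.1
    rw [hT]
    exact ⟨inferInstance, (nrm_iff D P h3.2 (hI P h3.1 h3.2)).2 hP.2⟩

end Pool.Agent.FW
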