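import Pool.Agent.Lib.FW.SpecI

/-!
# Primes of degree one
-/

open scoped Pointwise Topology
open Filter Asymptotics IsDedekindDomain NumberField

noncomputable section

namespace Pool.Agent.FW

open Pool.Agent.MuZ

namespace ID1Aux

variable (E : Type) [Field E] [NumberField E]

/-- The norm of a prime of prime norm. -/
def nm (v : {v : HeightOneSpectrum (𝓞 E) // (Ideal.absNorm v.asIdeal).Prime}) : Nat.Primes :=
  ⟨Ideal.absNorm v.1.asIdeal, v.2⟩

/-- The fibres of the norm. -/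
def fib (p : Nat.Primes) : {v : {v : HeightOneSpectrum (𝓞 E) // (Ideal.absNorm v.asIdeal).Prime} //
    nm E v = p} ≃ {v : Ideal (𝓞 E) // v.IsPrime ∧ Ideal.absNorm v = p} where
  toFun v := ⟨v.1.1.asIdeal, v.1.1.isPrime, congrArg Subtype.val v.2⟩
  invFun I := ⟨⟨⟨I.1, I.2.1, fun h => by
      have h1 := I.2.2
      rw [h, Ideal.absNorm_bot] at h1
      exact p.2.ne_zero h1.symm⟩, by
      change (Ideal.absNorm I.1).Prime
      rw [I.2.2]
      exact p.2⟩, Subtype.ext I.2.2⟩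
  left_inv v := rfl
  right_inv I := rfl

theorem absNorm_pos (v : HeightOneSpectrum (𝓞 E)) : 0 < Ideal.absNorm v.asIdeal := by
  rw [Nat.pos_iff_ne_zero, Ne, Ideal.absNorm_eq_zero_iff]
  exact v.ne_bot

theorem nrm_nonneg (v : HeightOneSpectrum (𝓞 E)) (s : ℝ) : 0 ≤ nrI E v s :=
  Real.rpow_nonneg (Nat.cast_nonneg _) _

theorem nrm_le (v : HeightOneSpectrum (𝓞 E)) {s : ℝ} (hs : 1 < s) :
    nrI E v s ≤ ((Ideal.absNorm v.asIdeal : ℕ) : ℝ)⁻¹ := by
  have h1 : (1 : ℝ) ≤ ((Ideal.absNorm v.asIdeal : ℕ) : ℝ) := by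
    exact_mod_cast absNorm_pos E v
  rw [← Real.rpow_neg_one]
  exact Real.rpow_le_rpow_of_exponent_le h1 (by linarith)

theorem tsum_prime {s : ℝ} (h : Summable fun v : HeightOneSpectrum (𝓞 E) => nrI E v s) :
    ∑' v : {v : HeightOneSpectrum (𝓞 E) // (Ideal.absNorm v.asIdeal).Prime}, nrI E v.1 s =
      ∑' p : Nat.Primes, (nP1 E p : ℝ) * ((p : ℕ) : ℝ) ^ (-s) := by
  have h0 : Summable fun v : {v : HeightOneSpectrum (𝓞 E) // (Ideal.absNorm v.asIdeal).Prime} =>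
      nrI E v.1 s := h.comp_injective Subtype.val_injective
  have h1 : Summable fun v : (p : Nat.Primes) × {v : {v : HeightOneSpectrum (𝓞 E) //
      (Ideal.absNorm v.asIdeal).Prime} // nm E v = p} => nrI E v.2.1.1 s :=
    (Equiv.summable_iff (Equiv.sigmaFiberEquiv (nm E))).2 h0
  have h2 : ∑' v : (p : Nat.Primes) × {v : {v : HeightOneSpectrum (𝓞 E) //
      (Ideal.absNorm v.asIdeal).Prime} // nm E v = p}, nrI E v.2.1.1 s =
      ∑' v : {v : HeightOneSpectrum (𝓞 E) // (Ideal.absNorm v.asIdeal).Prime}, nrI E v.1 s :=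
    Equiv.tsum_eq (Equiv.sigmaFiberEquiv (nm E)) fun v => nrI E v.1 s
  rw [← h2, h1.tsum_sigma]
  refine tsum_congr fun p => ?_
  have h3 : ∀ v : {v : {v : HeightOneSpectrum (𝓞 E) // (Ideal.absNorm v.asIdeal).Prime} //
      nm E v = p}, nrI E v.1.1 s = ((p : ℕ) : ℝ) ^ (-s) := by
    intro v
    have h4 : Ideal.absNorm v.1.1.asIdeal = (p : ℕ) := congrArg Subtype.val v.2
    rw [nrI, h4]
  rw [tsum_congr h3, tsum_const, Nat.card_congr (fib E p), nsmul_eq_mul]
  rfl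

end ID1Aux

namespace ID1Aux

variable (E : Type) [Field E] [NumberField E]

/-- The sum over the primes whose norm is not prime. -/
def Oth (s : ℝ) : ℝ :=
  ∑' v : {v : HeightOneSpectrum (𝓞 E) // ¬ (Ideal.absNorm v.asIdeal).Prime}, nrI E v.1 s

/-- The bound. -/
def OthB : ℝ :=
  ∑' v : {v : HeightOneSpectrum (𝓞 E) // ¬ (Ideal.absNorm v.asIdeal).Prime},
    ((Ideal.absNorm v.1.asIdeal : ℕ) : ℝ)⁻¹

theorem oth_nonneg (s : ℝ) : 0 ≤ Oth E s := tsum_nonneg fun v => nrm_nonneg E v.1 s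

theorem oth_le {s : ℝ} (hs : 1 < s) (h1 : Summable fun v : HeightOneSpectrum (𝓞 E) => nrI E v s)
    (h2 : Summable (fun v : {v : HeightOneSpectrum (𝓞 E) // ¬ (Ideal.absNorm v.asIdeal).Prime} =>
      ((Ideal.absNorm v.1.asIdeal : ℕ) : ℝ)⁻¹)) : Oth E s ≤ OthB E := by
  have h3 : Summable fun v : {v : HeightOneSpectrum (𝓞 E) // ¬ (Ideal.absNorm v.asIdeal).Prime} =>
    nrI E v.1 s := h1.comp_injective Subtype.val_injective
  exact Summable.tsum_le_tsum (fun v => nrm_le E v.1 hs) h3 h2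

theorem split_eq {s : ℝ} (h1 : Summable fun v : HeightOneSpectrum (𝓞 E) => nrI E v s) :
    ∑' p : Nat.Primes, (nP1 E p : ℝ) * ((p : ℕ) : ℝ) ^ (-s) =
      (∑' v : HeightOneSpectrum (𝓞 E), nrI E v s) - Oth E s := by
  have h3 := h1.tsum_subtype_add_tsum_subtype_compl
    {v : HeightOneSpectrum (𝓞 E) | (Ideal.absNorm v.asIdeal).Prime}
  rw [← tsum_prime E h1, ← h3]
  exact (add_sub_cancel_right _ _).symm

end ID1Aux

open ID1Aux in
theorem tID1 : S_ID1 := by
  intro hS hA E _ _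
  obtain ⟨h1, h2, _⟩ := hS E
  have h3 : (fun s : ℝ => Oth E s) =O[𝓝[>] 1] (fun _ => (1 : ℝ)) := by
    refine IsBigO.of_bound (OthB E) ?_
    filter_upwards [self_mem_nhdsWithin] with s hs
    rw [norm_one, mul_one, Real.norm_of_nonneg (oth_nonneg E s)]
    exact oth_le E hs (h1 s hs) h2
  have h4 := (hA E).sub h3
  refine h4.congr' ?_ (Eventually.of_forall fun _ => rfl)
  filter_upwards [self_mem_nhdsWithin] with s hs
  rw [split_eq E (h1 s hs)]
  ring

end Pool.Agent.FW
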