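import Pool.Agent.Lib.FW.SpecI

/-!
# Positive density
-/

open scoped Pointwise Topology
open Filter Asymptotics IsDedekindDomain NumberField

noncomputable section

namespace Pool.Agent.FW

open Pool.Agent.MuZ

namespace ILimAux

variable {L : Type} [Field L] [NumberField L] [IsGalois ℚ L]

/-- The prime number determines the prime ideal below. -/
theorem under_eq {p : ℕ} (hp : p.Prime) {P Q : Ideal (𝓞 L)} (hP : P.IsPrime) (hQ : Q.IsPrime)
    (h1 : (p : 𝓞 L) ∈ P) (h2 : (p : 𝓞 L) ∈ Q) : P.under ℤ = Q.under ℤ := by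
  haveI := Fact.mk hp
  have hM : (Ideal.span {(p : ℤ)}).IsMaximal := Int.ideal_span_isMaximal_of_prime p
  have key : ∀ R : Ideal (𝓞 L), R.IsPrime → (p : 𝓞 L) ∈ R → Ideal.span {(p : ℤ)} = R.under ℤ := by
    intro R hR h
    refine hM.eq_of_le (Ideal.IsPrime.under ℤ R).ne_top ?_
    rw [Ideal.span_singleton_le_iff_mem, Ideal.mem_comap]
    simpa using h
  rw [← key P hP h1, ← key Q hQ h2]

/-- The number of the primes above `p` with decomposition group `D` is at most the order of the Galois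
group. -/
theorem nSt_le {p : ℕ} (hp : p.Prime) (D : Subgroup Gal(L/ℚ)) : nSt L p D ≤ Nat.card Gal(L/ℚ) := by
  classical
  rw [nSt]
  by_cases hne : Nonempty {P : Ideal (𝓞 L) // P.IsPrime ∧ (p : 𝓞 L) ∈ P ∧
      MulAction.stabilizer Gal(L/ℚ) P = D}
  · obtain ⟨P₀⟩ := hne
    have h1 : ∀ Q : {P : Ideal (𝓞 L) // P.IsPrime ∧ (p : 𝓞 L) ∈ P ∧
        MulAction.stabilizer Gal(L/ℚ) P = D}, ∃ g : Gal(L/ℚ), Q.1 = g • P₀.1 := by
      intro Q
      haveI := P₀.2.1
      haveI := Q.2.1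
      exact Algebra.IsInvariant.exists_smul_of_under_eq ℤ (𝓞 L) Gal(L/ℚ) P₀.1 Q.1
        (under_eq hp P₀.2.1 Q.2.1 P₀.2.2.1 Q.2.2.1)
    choose g hg using h1
    refine Nat.card_le_card_of_injective g fun Q Q' h => Subtype.ext ?_
    rw [hg Q, hg Q', h]
  · rw [not_nonempty_iff] at hne
    rw [Nat.card_of_isEmpty]
    exact Nat.zero_le _

theorem nSt_eq_zero {p : ℕ} (hp : p.Prime) {D : Subgroup Gal(L/ℚ)} (h : p ∉ pSt L D) :
    nSt L p D = 0 := by
  rw [nSt]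
  haveI : IsEmpty {P : Ideal (𝓞 L) // P.IsPrime ∧ (p : 𝓞 L) ∈ P ∧
      MulAction.stabilizer Gal(L/ℚ) P = D} := ⟨fun P => h ⟨hp, P.1, P.2⟩⟩
  exact Nat.card_of_isEmpty

/-- The comparison of the series. -/
theorem tsum_le (D : Subgroup Gal(L/ℚ)) {s : ℝ} (hs : 1 < s) :
    ∑' p : Nat.Primes, ((Nat.card D : ℝ) * (nSt L p D : ℝ)) * ((p : ℕ) : ℝ) ^ (-s) ≤
      ((Nat.card D : ℝ) * (Nat.card Gal(L/ℚ) : ℝ)) * ∑' p : pSt L D, ((p : ℕ) : ℝ) ^ (-s) := by
  classical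
  have h0 : ∀ n : ℕ, (0 : ℝ) ≤ (n : ℝ) ^ (-s) := fun n => Real.rpow_nonneg (Nat.cast_nonneg n) _
  have hsum : Summable fun n : ℕ => (n : ℝ) ^ (-s) := Real.summable_nat_rpow.2 (by linarith)
  let C : ℝ := (Nat.card D : ℝ) * (Nat.card Gal(L/ℚ) : ℝ)
  have hC : 0 ≤ C := by positivity
  have e1 : ∑' p : Nat.Primes, ((Nat.card D : ℝ) * (nSt L p D : ℝ)) * ((p : ℕ) : ℝ) ^ (-s) =
      ∑' n : ℕ, ({n : ℕ | n.Prime}.indicator fun n : ℕ =>
        ((Nat.card D : ℝ) * (nSt L n D : ℝ)) * (n : ℝ) ^ (-s)) n :=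
    tsum_subtype {n : ℕ | n.Prime} fun n : ℕ =>
      ((Nat.card D : ℝ) * (nSt L n D : ℝ)) * (n : ℝ) ^ (-s)
  have e2 : ∑' p : pSt L D, ((p : ℕ) : ℝ) ^ (-s) =
      ∑' n : ℕ, ((pSt L D).indicator fun n : ℕ => (n : ℝ) ^ (-s)) n :=
    tsum_subtype (pSt L D) fun n : ℕ => (n : ℝ) ^ (-s)
  have hle : ∀ n : ℕ, ({n : ℕ | n.Prime}.indicator fun n : ℕ =>
        ((Nat.card D : ℝ) * (nSt L n D : ℝ)) * (n : ℝ) ^ (-s)) n ≤
      C * ((pSt L D).indicator fun n : ℕ => (n : ℝ) ^ (-s)) n := by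
    intro n
    have hn0 : 0 ≤ ((pSt L D).indicator fun n : ℕ => (n : ℝ) ^ (-s)) n :=
      Set.indicator_nonneg (fun n _ => h0 n) n
    by_cases hp : n.Prime
    · rw [Set.indicator_of_mem (show n ∈ {n : ℕ | n.Prime} from hp)]
      by_cases hm : n ∈ pSt L D
      · rw [Set.indicator_of_mem hm]
        refine mul_le_mul_of_nonneg_right ?_ (h0 n)
        refine mul_le_mul_of_nonneg_left ?_ (Nat.cast_nonneg _)
        exact_mod_cast nSt_le hp D
      · rw [nSt_eq_zero hp hm, Nat.cast_zero, mul_zero, zero_mul]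
        exact mul_nonneg hC hn0
    · rw [Set.indicator_of_notMem (show n ∉ {n : ℕ | n.Prime} from hp)]
      exact mul_nonneg hC hn0
  have hs2 : Summable fun n : ℕ => C * ((pSt L D).indicator fun n : ℕ => (n : ℝ) ^ (-s)) n :=
    (hsum.indicator _).mul_left C
  have hs1 : Summable fun n : ℕ => ({n : ℕ | n.Prime}.indicator fun n : ℕ =>
        ((Nat.card D : ℝ) * (nSt L n D : ℝ)) * (n : ℝ) ^ (-s)) n := by
    refine Summable.of_nonneg_of_le (fun n => Set.indicator_nonneg (fun n _ => ?_) n) hle hs2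
    exact mul_nonneg (by positivity) (h0 n)
  rw [e1, e2, ← tsum_mul_left]
  exact hs1.tsum_le_tsum hle hs2

end ILimAux

open ILimAux in
theorem tILim : S_ILim := by
  intro h L _ _ _ g
  classical
  have hf := h L (Subgroup.zpowers g)
  obtain ⟨B, hB⟩ := hf.bound
  have hn : (1 : ℝ) ≤ (Nat.card {x : Gal(L/ℚ) // Subgroup.zpowers x = Subgroup.zpowers g} : ℝ) := by
    haveI : Nonempty {x : Gal(L/ℚ) // Subgroup.zpowers x = Subgroup.zpowers g} := ⟨⟨g, rfl⟩⟩
    have : 0 < Nat.card {x : Gal(L/ℚ) // Subgroup.zpowers x = Subgroup.zpowers g} := Nat.card_pos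
    exact_mod_cast this
  set N : ℝ := (Nat.card {x : Gal(L/ℚ) // Subgroup.zpowers x = Subgroup.zpowers g} : ℝ) with hN
  let C : ℝ := (Nat.card (Subgroup.zpowers g) : ℝ) * (Nat.card Gal(L/ℚ) : ℝ)
  have hC : 0 < C := by
    have h1 : 0 < Nat.card (Subgroup.zpowers g) := Nat.card_pos
    have h2 : 0 < Nat.card Gal(L/ℚ) := Nat.card_pos
    exact mul_pos (by exact_mod_cast h1) (by exact_mod_cast h2)
  have hlog : Tendsto (fun s : ℝ => Real.log (1 / (s - 1))) (𝓝[>] 1) atTop := by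
    refine Real.tendsto_log_atTop.comp ?_
    have h1 : Tendsto (fun s : ℝ => s - 1) (𝓝[>] 1) (𝓝[>] 0) := by
      refine tendsto_nhdsWithin_iff.2 ⟨?_, ?_⟩
      · have : Tendsto (fun s : ℝ => s - 1) (𝓝 1) (𝓝 (1 - 1)) := tendsto_id.sub_const 1
        rw [sub_self] at this
        exact this.mono_left nhdsWithin_le_nhds
      · filter_upwards [self_mem_nhdsWithin] with s hs
        exact sub_pos.2 (Set.mem_Ioi.1 hs)
    have h2 := tendsto_inv_nhdsGT_zero.comp h1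
    refine h2.congr fun s => ?_
    rw [Function.comp_apply, one_div]
  refine ⟨1 / (2 * C), by positivity, ?_⟩
  filter_upwards [hB, self_mem_nhdsWithin, hlog.eventually_ge_atTop (2 * |B|)] with s h1 h2 h3
  have h4 := tsum_le (Subgroup.zpowers g) h2
  rw [norm_one, mul_one, Real.norm_eq_abs] at h1
  have h5 := (abs_le.1 h1).1
  have h6 : 0 ≤ Real.log (1 / (s - 1)) := le_trans (by positivity) h3
  have h7 : Real.log (1 / (s - 1)) ≤ N * Real.log (1 / (s - 1)) := le_mul_of_one_le_left h6 hn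
  have h8 : B ≤ |B| := le_abs_self B
  have h9 : Real.log (1 / (s - 1)) / 2 ≤ C * ∑' p : pSt L (Subgroup.zpowers g), ((p : ℕ) : ℝ) ^ (-s) := by
    linarith
  rw [div_mul_eq_mul_div, one_mul, div_le_iff₀ (by positivity)]
  linarith

end Pool.Agent.FW
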