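import Pool.Agent.Lib.FW.SpecI

open scoped Pointwise Topology
open Filter Asymptotics IsDedekindDomain NumberField

namespace Pool.Agent.FW
open Pool.Agent.MuZ

namespace IMobAux

/-- The Dirichlet series of `a` over the primes. -/
noncomputable def F (a : Nat.Primes → ℝ) (s : ℝ) : ℝ :=
  ∑' p : Nat.Primes, a p * ((p : ℕ) : ℝ) ^ (-s)

theorem smm {a : Nat.Primes → ℝ} {C : ℝ} (h : ∀ p, |a p| ≤ C) {s : ℝ} (hs : 1 < s) :
    Summable fun p : Nat.Primes => a p * ((p : ℕ) : ℝ) ^ (-s) := by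
  refine Summable.of_norm_bounded (g := fun p : Nat.Primes => C * ((p : ℕ) : ℝ) ^ (-s)) ?_ ?_
  · exact (Nat.Primes.summable_rpow.2 (by linarith)).mul_left C
  · intro p
    rw [Real.norm_eq_abs, abs_mul, abs_of_nonneg (Real.rpow_nonneg (Nat.cast_nonneg _) _)]
    exact mul_le_mul_of_nonneg_right (h p) (Real.rpow_nonneg (Nat.cast_nonneg _) _)

theorem dif {a b : Nat.Primes → ℝ} {C : ℝ} (ha : ∀ p, |a p| ≤ C) (hb : ∀ p, |b p| ≤ C)
    (hf : {p | a p ≠ b p}.Finite) :
    (fun s => F a s - F b s) =O[𝓝[>] 1] (fun _ => (1 : ℝ)) := by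
  refine IsBigO.of_bound (∑ p ∈ hf.toFinset, |a p - b p|) ?_
  filter_upwards [self_mem_nhdsWithin] with s hs
  have hs : 1 < s := hs
  rw [F, F, ← (smm ha hs).tsum_sub (smm hb hs)]
  have h1 : ∑' p : Nat.Primes, (a p * ((p : ℕ) : ℝ) ^ (-s) - b p * ((p : ℕ) : ℝ) ^ (-s)) =
      ∑ p ∈ hf.toFinset, (a p * ((p : ℕ) : ℝ) ^ (-s) - b p * ((p : ℕ) : ℝ) ^ (-s)) := by
    refine tsum_eq_sum fun p hp => ?_
    have : a p = b p := by simpa using hp
    rw [this, sub_self]
  rw [h1]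
  refine (norm_sum_le _ _).trans ?_
  rw [norm_one, mul_one]
  refine Finset.sum_le_sum fun p _ => ?_
  rw [← sub_mul, norm_mul, Real.norm_eq_abs, Real.norm_eq_abs,
    abs_of_nonneg (Real.rpow_nonneg (Nat.cast_nonneg _) _)]
  refine mul_le_of_le_one_right (abs_nonneg _) ?_
  exact Real.rpow_le_one_of_one_le_of_nonpos (by exact_mod_cast p.2.one_le) (by linarith)

theorem Fsum {ι : Type} (T : Finset ι) {c : ι → Nat.Primes → ℝ} {C : ℝ}
    (h : ∀ i p, |c i p| ≤ C) {s : ℝ} (hs : 1 < s) :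
    F (fun p => ∑ i ∈ T, c i p) s = ∑ i ∈ T, F (c i) s := by
  simp only [F, Finset.sum_mul]
  exact Summable.tsum_finsetSum fun i _ => smm (h i) hs

theorem over_p {p : ℕ} (hp : p.Prime) {R : Type} [CommRing R] (P : Ideal R) [hP : P.IsPrime]
    (h : (p : R) ∈ P) : P.LiesOver (Ideal.span {(p : ℤ)}) := by
  have hpp : Prime (p : ℤ) := Nat.prime_iff_prime_int.mp hp
  have hmax : (Ideal.span {(p : ℤ)}).IsMaximal :=
    ((Ideal.span_singleton_prime hpp.ne_zero).2 hpp).isMaximal (by simpa using hpp.ne_zero)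
  refine ⟨hmax.eq_of_le (Ideal.IsPrime.ne_top inferInstance) ?_⟩
  rw [Ideal.span_singleton_le_iff_mem, Ideal.mem_comap]
  simpa using h

theorem nSt_le (L : Type) [Field L] [NumberField L] [IsGalois ℚ L] {p : ℕ} (hp : p.Prime)
    (D : Subgroup Gal(L/ℚ)) : nSt L p D ≤ Nat.card Gal(L/ℚ) := by
  have : Fact p.Prime := ⟨hp⟩
  have hpp : Prime (p : ℤ) := Nat.prime_iff_prime_int.mp hp
  have : (Ideal.span {(p : ℤ)}).IsPrime := (Ideal.span_singleton_prime hpp.ne_zero).2 hpp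
  have : IsGaloisGroup Gal(L/ℚ) ℤ (𝓞 L) := IsGaloisGroup.of_isFractionRing _ _ _ ℚ L
  have hfin := Algebra.QuasiFinite.finite_primesOver (S := 𝓞 L) (Ideal.span {(p : ℤ)})
  have h1 : nSt L p D ≤ ((Ideal.span {(p : ℤ)}).primesOver (𝓞 L)).ncard := by
    refine Set.ncard_le_ncard (s := {P : Ideal (𝓞 L) | P.IsPrime ∧ (p : 𝓞 L) ∈ P ∧
      MulAction.stabilizer Gal(L/ℚ) P = D}) ?_ hfin
    rintro P ⟨h1, h2, _⟩
    exact ⟨h1, over_p hp P h2⟩
  refine h1.trans ?_
  obtain ⟨P⟩ := (inferInstance : Nonempty ((Ideal.span {(p : ℤ)}).primesOver (𝓞 L)))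
  have h2 := P.2.1
  have h3 := P.2.2
  have h4 := Ideal.ncard_primesOver_mul_card_inertia_mul_finrank (G := Gal(L/ℚ))
    (Ideal.span {(p : ℤ)}) P.1
  refine Nat.le_of_dvd Nat.card_pos ?_
  rw [← h4, mul_assoc]
  exact Dvd.intro _ rfl

open Classical in
theorem gens {G : Type} [Group G] [Finite G] [Fintype (Subgroup G)] (D : Subgroup G) :
    ∑ D' : Subgroup G with D' ≤ D, Nat.card {x : G // Subgroup.zpowers x = D'} = Nat.card D := by
  have : Fintype G := Fintype.ofFinite G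
  have h1 : Nat.card D = (Finset.univ.filter fun x : G => x ∈ D).card :=
    Nat.subtype_card _ fun x => by simp
  rw [h1, Finset.card_eq_sum_card_fiberwise (f := fun x : G => Subgroup.zpowers x)
    (t := Finset.univ.filter fun D' : Subgroup G => D' ≤ D)]
  · refine Finset.sum_congr rfl fun D' hD' => ?_
    rw [Finset.mem_filter] at hD'
    refine Nat.subtype_card _ fun x => ?_
    rw [Finset.filter_filter, Finset.mem_filter]
    constructor
    · rintro ⟨_, _, h⟩
      exact h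
    · intro h
      refine ⟨Finset.mem_univ _, ?_, h⟩
      exact hD'.2 (h ▸ Subgroup.mem_zpowers x)
  · intro x hx
    have : x ∈ D := by simpa using hx
    simpa using this

/-- The coefficient. -/
noncomputable def cf (L : Type) [Field L] [NumberField L] (D : Subgroup Gal(L/ℚ))
    (p : Nat.Primes) : ℝ := (Nat.card D : ℝ) * (nSt L p D : ℝ)

theorem cf_le (L : Type) [Field L] [NumberField L] [IsGalois ℚ L]
    (D : Subgroup Gal(L/ℚ)) (p : Nat.Primes) :
    |cf L D p| ≤ (Nat.card Gal(L/ℚ) : ℝ) * (Nat.card Gal(L/ℚ) : ℝ) := by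
  rw [abs_of_nonneg (by unfold cf; positivity), cf]
  have h1 : Nat.card D ≤ Nat.card Gal(L/ℚ) := Nat.card_le_card_of_injective _ D.subtype_injective
  have h2 := nSt_le L p.2 D
  gcongr

open Classical in
theorem upp (hD1 : ∀ (E : Type) [Field E] [NumberField E],
    (fun s : ℝ => (∑' p : Nat.Primes, (nP1 E p : ℝ) * ((p : ℕ) : ℝ) ^ (-s)) -
      Real.log (1 / (s - 1))) =O[𝓝[>] 1] (fun _ => (1 : ℝ)))
    (hR : S_IRam) (hC : S_ICnt) (hS : S_ISum)
    (L : Type) [Field L] [NumberField L] [IsGalois ℚ L] [Fintype (Subgroup Gal(L/ℚ))]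
    (D : Subgroup Gal(L/ℚ)) :
    (fun s : ℝ => (∑ D' : Subgroup Gal(L/ℚ) with D' ≤ D, F (cf L D') s) -
      (Nat.card D : ℝ) * Real.log (1 / (s - 1))) =O[𝓝[>] 1] (fun _ => (1 : ℝ)) := by
  set E := IntermediateField.fixedField D with hE
  set a : Nat.Primes → ℝ := fun p => ∑ D' : Subgroup Gal(L/ℚ) with D' ≤ D, cf L D' p with ha
  set b : Nat.Primes → ℝ := fun p => (Nat.card D : ℝ) * (nP1 E p : ℝ) with hb
  obtain ⟨C, hCa, hCb⟩ : ∃ C : ℝ, (∀ p, |a p| ≤ C) ∧ ∀ p, |b p| ≤ C := by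
    refine ⟨max (∑ D' : Subgroup Gal(L/ℚ) with D' ≤ D,
      (Nat.card Gal(L/ℚ) : ℝ) * (Nat.card Gal(L/ℚ) : ℝ))
      ((Nat.card D : ℝ) * (Module.finrank ℚ E : ℝ)), fun p => ?_, fun p => ?_⟩
    · refine le_max_of_le_left ((Finset.abs_sum_le_sum_abs _ _).trans ?_)
      exact Finset.sum_le_sum fun D' _ => cf_le L D' p
    · refine le_max_of_le_right ?_
      rw [abs_of_nonneg (by simp only [hb]; positivity)]
      have := (hS E).2.2 p
      simp only [hb]
      gcongr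
  have hfin : {p | a p ≠ b p}.Finite := by
    refine Set.Finite.subset (Set.Finite.preimage
      (f := fun p : Nat.Primes => (p : ℕ)) Subtype.val_injective.injOn (hR L)) ?_
    intro p hp
    by_contra hcon
    refine hp ?_
    have hI : ∀ P : Ideal (𝓞 L), P.IsPrime → ((p : ℕ) : 𝓞 L) ∈ P →
        P.inertia Gal(L/ℚ) = ⊥ := by
      intro P h1 h2
      by_contra h3
      exact hcon ⟨p.2, P, h1, h2, h3⟩
    have h4 := hC L D p p.2 hI
    have h5 : ∑ᶠ (D' : Subgroup Gal(L/ℚ)) (_ : D' ≤ D), Nat.card D' * nSt L p D' =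
        ∑ D' : Subgroup Gal(L/ℚ) with D' ≤ D, Nat.card D' * nSt L p D' := by
      refine (finsum_mem_eq_finite_toFinset_sum (fun D' : Subgroup Gal(L/ℚ) =>
        Nat.card D' * nSt L p D') (Set.toFinite {D' : Subgroup Gal(L/ℚ) | D' ≤ D})).trans ?_
      refine Finset.sum_congr ?_ fun _ _ => rfl
      ext D'
      simp
    rw [h5] at h4
    simp only [ha, hb, cf]
    exact_mod_cast h4
  have h1 := dif hCa hCb hfin
  have h2 := (hD1 E).const_mul_left (Nat.card D : ℝ)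
  refine ((h1.add h2).congr' ?_ (EventuallyEq.refl _ _))
  filter_upwards [self_mem_nhdsWithin] with s hs
  have hs : 1 < s := hs
  rw [ha, Fsum _ (fun D' p => cf_le L D' p) hs]
  have h3 : F b s = (Nat.card D : ℝ) * ∑' p : Nat.Primes, (nP1 E p : ℝ) * ((p : ℕ) : ℝ) ^ (-s) := by
    rw [F, ← tsum_mul_left]
    refine tsum_congr fun p => ?_
    simp only [hb]
    ring
  rw [h3]
  ring

end IMobAux

open Classical in
open IMobAux in
theorem tIMob : S_IMob := by
  intro hD1 hR hC hS L _ _ _ D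
  have : Finite Gal(L/ℚ) := inferInstance
  have : Fintype (Subgroup Gal(L/ℚ)) := Fintype.ofFinite _
  change (fun s : ℝ => F (cf L D) s -
      (Nat.card {x : Gal(L/ℚ) // Subgroup.zpowers x = D} : ℝ) * Real.log (1 / (s - 1)))
      =O[𝓝[>] 1] (fun _ => (1 : ℝ))
  induction D using WellFoundedLT.induction with
  | ind D ih =>
    have h1 := upp hD1 hR hC hS L D
    have h2 : (fun s : ℝ => ∑ D' : Subgroup Gal(L/ℚ) with D' < D, (F (cf L D') s -
      (Nat.card {x : Gal(L/ℚ) // Subgroup.zpowers x = D'} : ℝ) * Real.log (1 / (s - 1))))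
      =O[𝓝[>] 1] (fun _ => (1 : ℝ)) :=
      IsBigO.fun_sum fun D' hD' => ih D' (by simpa using hD')
    refine (h1.sub h2).congr_left fun s => ?_
    have h3 : (Finset.univ.filter fun D' : Subgroup Gal(L/ℚ) => D' ≤ D) =
        insert D (Finset.univ.filter fun D' : Subgroup Gal(L/ℚ) => D' < D) := by
      ext D'
      simp [le_iff_eq_or_lt]
    have h4 : D ∉ (Finset.univ.filter fun D' : Subgroup Gal(L/ℚ) => D' < D) := by simp
    have h5 := gens D
    have h6 : (Nat.card D : ℝ) = (Nat.card {x : Gal(L/ℚ) // Subgroup.zpowers x = D} : ℝ) +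
        ∑ D' : Subgroup Gal(L/ℚ) with D' < D,
          (Nat.card {x : Gal(L/ℚ) // Subgroup.zpowers x = D'} : ℝ) := by
      rw [← h5, h3, Finset.sum_insert h4]
      push_cast
      rfl
    rw [h3, Finset.sum_insert h4, h6, Finset.sum_sub_distrib, ← Finset.sum_mul]
    ring

end Pool.Agent.FW
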