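import Pool.Agent.Lib.FW.SpecI
import Pool.Agent.Lib.MuZ.Tot
import Pool.Agent.Lib.MuZ.Inst

/-!
# FW, part I, module IOm: primes with a given decomposition group, in the algebraic closure
-/

open scoped Pointwise Topology
open Filter Asymptotics IsDedekindDomain NumberField

noncomputable section

namespace Pool.Agent.FW

open Pool.Agent.MuZ

namespace IOmAux

/-- The inclusion of the ring of integers of `L` into `ZZ`. -/
def io (L : IntermediateField ℚ Om) : 𝓞 L →+* ZZ where
  toFun x := ⟨((x : L) : Om), by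
    have h : IsIntegral ℤ (x : L) := x.2
    exact h.map (IsScalarTower.toAlgHom ℤ L Om)⟩
  map_one' := rfl
  map_mul' _ _ := rfl
  map_zero' := rfl
  map_add' _ _ := rfl

theorem io_coe (L : IntermediateField ℚ Om) (x : 𝓞 L) : ((io L x : ZZ) : Om) = ((x : L) : Om) := rfl

theorem io_inj (L : IntermediateField ℚ Om) : Function.Injective (io L) := by
  intro x y h
  have h1 : ((io L x : ZZ) : Om) = ((io L y : ZZ) : Om) := by rw [h]
  exact RingOfIntegers.ext (Subtype.ext h1)

/-- Lying over. -/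
theorem exists_over (L : IntermediateField ℚ Om) (P₀ : Ideal (𝓞 L)) (hP₀ : P₀.IsPrime) :
    ∃ P : Ideal ZZ, P.IsPrime ∧ P.comap (io L) = P₀ := by
  letI : Algebra (𝓞 L) ZZ := (io L).toAlgebra
  haveI : IsScalarTower ℤ (𝓞 L) ZZ := IsScalarTower.of_algebraMap_eq' (RingHom.ext_int _ _)
  haveI : Algebra.IsIntegral (𝓞 L) ZZ := by
    constructor
    intro x
    have h : IsIntegral ℤ x := by
      rw [← isIntegral_algebraMap_iff (B := Om) (show Function.Injective (algebraMap ZZ Om) from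
        Subtype.val_injective)]
      exact x.2
    exact h.tower_top
  have hker : RingHom.ker (algebraMap (𝓞 L) ZZ) ≤ P₀ := by
    intro x hx
    have h1 : io L x = 0 := hx
    have h2 : x = 0 := io_inj L (by rw [h1, map_zero])
    rw [h2]
    exact P₀.zero_mem
  obtain ⟨Q, hQ, hQP⟩ := Ideal.exists_ideal_over_prime_of_isIntegral_of_isDomain P₀ hker
  exact ⟨Q, hQ, hQP⟩

/-- `PosDens` is monotone. -/
theorem mono {S S' : Set ℕ} (h : S ⊆ S') (hS : PosDens S) : PosDens S' := by
  obtain ⟨c, hc, hev⟩ := hS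
  refine ⟨c, hc, ?_⟩
  filter_upwards [hev, self_mem_nhdsWithin] with s h1 h2
  refine h1.trans ?_
  have hs : 1 < s := h2
  have hsm : Summable fun n : ℕ => (n : ℝ) ^ (-s) := Real.summable_nat_rpow.2 (by linarith)
  rw [tsum_subtype S (fun n : ℕ => (n : ℝ) ^ (-s)), tsum_subtype S' (fun n : ℕ => (n : ℝ) ^ (-s))]
  refine Summable.tsum_le_tsum (fun n => ?_) (hsm.indicator S) (hsm.indicator S')
  exact Set.indicator_le_indicator_of_subset h
    (fun m => Real.rpow_nonneg (Nat.cast_nonneg m) _) n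

theorem smul_io (L : IntermediateField ℚ Om) [Normal ℚ L] (g : Gal(Om/ℚ)) (y : 𝓞 L) :
    io L (AlgEquiv.restrictNormalHom L g • y) = g • io L y := by
  apply Subtype.ext
  exact AlgEquiv.restrictNormal_commutes g L (y : L)

end IOmAux

open IOmAux in
theorem tIOm : S_IOm := by
  intro hL L hfin hnor g
  haveI : FiniteDimensional ℚ L := hfin
  haveI : Normal ℚ L := hnor
  haveI : NumberField L := NumberField.mk
  haveI : IsGalois ℚ L := IsGalois.mk
  obtain ⟨g₀, hg₀⟩ : ∃ g₀ : Gal(L/ℚ), g₀ = AlgEquiv.restrictNormalHom L g := ⟨_, rfl⟩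
  refine mono ?_ (hL L g₀)
  rintro p ⟨hp, P₀, hP₀, hpP, hst⟩
  refine ⟨hp, ?_⟩
  obtain ⟨P, hP, hPc⟩ := exists_over L P₀ hP₀
  have hgP : g₀ • P₀ = P₀ := by
    have h1 : g₀ ∈ MulAction.stabilizer Gal(L/ℚ) P₀ := by
      rw [hst]
      exact Subgroup.mem_zpowers g₀
    exact MulAction.mem_stabilizer_iff.1 h1
  have hcl : IsClosed (L.fixingSubgroup : Set Gal(Om/ℚ)) :=
    InfiniteGalois.fixingSubgroup_isClosed L
  have hfix : ∀ x : Om, (∀ h ∈ L.fixingSubgroup, h x = x) → x ∈ L := by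
    intro x hx
    rw [← InfiniteGalois.fixedField_fixingSubgroup L]
    rintro ⟨h, hh⟩
    exact hx h hh
  obtain ⟨τ, hτ, hτP⟩ := tot_trans L.fixingSubgroup hcl (g • P) P (hP.smul g) hP (by
    intro x hx
    have hxL : (x : Om) ∈ L := hfix x fun h hh => congrArg Subtype.val (hx h hh)
    have hi : IsIntegral ℤ (⟨(x : Om), hxL⟩ : L) := by
      rw [← isIntegral_algebraMap_iff (B := Om)
        (show Function.Injective (algebraMap L Om) from Subtype.val_injective)]
      exact x.2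
    obtain ⟨y, hy⟩ : ∃ y : 𝓞 L, io L y = x := ⟨⟨⟨(x : Om), hxL⟩, hi⟩, rfl⟩
    have h1 : io L y = g • io L (g₀⁻¹ • y) := by
      rw [← smul_io, ← hg₀, smul_inv_smul]
    have h2 : io L (g₀⁻¹ • y) ∈ P ↔ io L y ∈ P := by
      rw [← Ideal.mem_comap, ← Ideal.mem_comap, hPc, ← Ideal.mem_pointwise_smul_iff_inv_smul_mem,
        hgP]
    rw [← hy]
    conv_lhs => rw [h1]
    rw [Ideal.smul_mem_pointwise_smul_iff]
    exact h2)
  refine ⟨P, hP, ?_, τ * g, ?_, ?_⟩
  · have h1 : (p : 𝓞 L) ∈ P.comap (io L) := by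
      rw [hPc]
      exact hpP
    rw [Ideal.mem_comap, map_natCast] at h1
    exact h1
  · rw [MulAction.mem_stabilizer_iff, mul_smul]
    exact hτP.symm
  · rw [IntermediateField.mem_fixingSubgroup_iff]
    intro x hx
    have hgx : g x ∈ L := by
      have h1 := AlgEquiv.restrictNormal_commutes g L (⟨x, hx⟩ : L)
      have h2 : g x = ((g.restrictNormal L ⟨x, hx⟩ : L) : Om) := h1.symm
      rw [h2]
      exact SetLike.coe_mem _
    have hτx : τ⁻¹ (g x) = g x :=
      (IntermediateField.mem_fixingSubgroup_iff L _).1 (inv_mem hτ) _ hgx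
    rw [mul_inv_rev, AlgEquiv.mul_apply, AlgEquiv.mul_apply, hτx]
    exact g.symm_apply_apply x

end Pool.Agent.FW
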