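import Pool.Agent.Lib.FW.SpecI

/-!
# FW, part I, module IPos: finite sets do not matter
-/

open scoped Pointwise Topology
open Filter Asymptotics IsDedekindDomain NumberField

noncomputable section

namespace Pool.Agent.FW

open Pool.Agent.MuZ

namespace IPosAux

theorem log_top : Tendsto (fun s : ℝ => Real.log (1 / (s - 1))) (𝓝[>] 1) atTop := by
  have h1 : Tendsto (fun s : ℝ => s - 1) (𝓝[>] 1) (𝓝[>] 0) := by
    rw [tendsto_nhdsWithin_iff]
    refine ⟨?_, ?_⟩
    · have h : Tendsto (fun s : ℝ => s - 1) (𝓝 1) (𝓝 (1 - 1)) :=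
        (continuous_id.sub continuous_const).tendsto 1
      rw [sub_self] at h
      exact h.mono_left nhdsWithin_le_nhds
    · filter_upwards [self_mem_nhdsWithin] with s hs
      exact Set.mem_Ioi.2 (sub_pos.2 (Set.mem_Ioi.1 hs))
  have h2 := tendsto_inv_nhdsGT_zero.comp h1
  have h3 := Real.tendsto_log_atTop.comp h2
  refine h3.congr fun s => ?_
  simp [one_div]

theorem summ (s : ℝ) (hs : 1 < s) : Summable fun n : ℕ => (n : ℝ) ^ (-s) :=
  Real.summable_nat_rpow.2 (by linarith)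

theorem term_nonneg (s : ℝ) (n : ℕ) : 0 ≤ (n : ℝ) ^ (-s) := Real.rpow_nonneg (Nat.cast_nonneg n) _

theorem term_le_one (s : ℝ) (hs : 1 < s) (n : ℕ) : (n : ℝ) ^ (-s) ≤ 1 := by
  rcases Nat.eq_zero_or_pos n with h | h
  · rw [h, Nat.cast_zero, Real.zero_rpow (by linarith)]
    exact zero_le_one
  · exact Real.rpow_le_one_of_one_le_of_nonpos (by exact_mod_cast h) (by linarith)

theorem compare (S S' F : Set ℕ) (hF : F.Finite) (h : ∀ p ∈ S, p ∉ F → p ∈ S') (s : ℝ)
    (hs : 1 < s) :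
    (∑' p : S, ((p : ℕ) : ℝ) ^ (-s)) ≤
      (∑' n : ℕ, F.indicator (fun _ => (1 : ℝ)) n) + ∑' p : S', ((p : ℕ) : ℝ) ^ (-s) := by
  have hsm := summ s hs
  rw [tsum_subtype S (fun n : ℕ => (n : ℝ) ^ (-s)), tsum_subtype S' (fun n : ℕ => (n : ℝ) ^ (-s))]
  have hF' : Summable (F.indicator (fun _ => (1 : ℝ))) := by
    refine summable_of_ne_finset_zero (s := hF.toFinset) fun b hb => ?_
    exact Set.indicator_of_notMem (fun h' => hb (hF.mem_toFinset.2 h')) _
  rw [← hF'.tsum_add (hsm.indicator S')]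
  refine Summable.tsum_le_tsum (fun n => ?_) (hsm.indicator S) (hF'.add (hsm.indicator S'))
  have h1 : 0 ≤ F.indicator (fun _ => (1 : ℝ)) n := Set.indicator_nonneg (fun _ _ => zero_le_one) n
  have h2 : 0 ≤ S'.indicator (fun n : ℕ => (n : ℝ) ^ (-s)) n :=
    Set.indicator_nonneg (fun m _ => term_nonneg s m) n
  by_cases hn : n ∈ S
  · rw [Set.indicator_of_mem hn]
    by_cases hnF : n ∈ F
    · rw [Set.indicator_of_mem hnF]
      exact (term_le_one s hs n).trans (le_add_of_nonneg_right h2)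
    · rw [Set.indicator_of_mem (h n hn hnF)]
      exact le_add_of_nonneg_left h1
  · rw [Set.indicator_of_notMem hn]
    exact add_nonneg h1 h2

end IPosAux

open IPosAux in
theorem tIPos : S_IPos := by
  intro S S' F hS hF h _
  obtain ⟨c, hc, hev⟩ := hS
  refine ⟨c / 2, by linarith, ?_⟩
  obtain ⟨K, hK⟩ : ∃ K : ℝ, K = ∑' n : ℕ, F.indicator (fun _ => (1 : ℝ)) n := ⟨_, rfl⟩
  have hlog := log_top.eventually_ge_atTop (K / (c / 2))
  filter_upwards [hev, hlog, self_mem_nhdsWithin] with s h1 h2 h3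
  have h4 := compare S S' F hF h s h3
  rw [← hK] at h4
  have h5 : K ≤ c / 2 * Real.log (1 / (s - 1)) := by
    rw [div_le_iff₀ (by linarith)] at h2
    linarith
  linarith

end Pool.Agent.FW
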