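import Pool.Agent.Lib.FW.SpecI

/-!
# Ramification
-/

open scoped Pointwise Topology
open Filter Asymptotics IsDedekindDomain NumberField

noncomputable section

namespace Pool.Agent.FW

open Pool.Agent.MuZ

namespace IRamAux

variable {L : Type} [Field L] [NumberField L]

/-- If a prime ideal contains the prime number `p` and the integer `N` then `p` divides `N`. -/
theorem dvd_of_mem {P : Ideal (𝓞 L)} (hP : P.IsPrime) {p N : ℕ} (hp : p.Prime) (h1 : (p : 𝓞 L) ∈ P)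
    (h2 : (N : 𝓞 L) ∈ P) : p ∣ N := by
  by_contra h
  have h3 : IsCoprime (p : ℤ) (N : ℤ) := by
    rw [Nat.isCoprime_iff_coprime]
    exact (Nat.Prime.coprime_iff_not_dvd hp).2 h
  obtain ⟨a, b, hab⟩ := h3
  refine hP.ne_top ((Ideal.eq_top_iff_one P).2 ?_)
  have h4 : ((a : 𝓞 L) * (p : 𝓞 L) + (b : 𝓞 L) * (N : 𝓞 L)) = 1 := by
    exact_mod_cast congrArg (Int.cast : ℤ → 𝓞 L) hab
  rw [← h4]
  exact P.add_mem (P.mul_mem_left _ h1) (P.mul_mem_left _ h2)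

theorem exists_ne [IsGalois ℚ L] {σ : Gal(L/ℚ)} (hσ : σ ≠ 1) : ∃ x : 𝓞 L, σ • x ≠ x := by
  by_contra h
  push Not at h
  haveI : FaithfulSMul Gal(L/ℚ) (𝓞 L) := IsGaloisGroup.faithful ℤ
  exact hσ (eq_of_smul_eq_smul fun x : 𝓞 L => by rw [h x, one_smul])

end IRamAux

open IRamAux in
theorem tIRam : S_IRam := by
  intro L _ _ _
  classical
  choose! x hx using fun (σ : Gal(L/ℚ)) (hσ : σ ≠ 1) => exists_ne hσ
  let N : Gal(L/ℚ) → ℕ := fun σ => Ideal.absNorm (Ideal.span {σ • x σ - x σ})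
  have hN : ∀ σ : Gal(L/ℚ), σ ≠ 1 → N σ ≠ 0 := by
    intro σ hσ h
    rw [Ideal.absNorm_eq_zero_iff, Ideal.span_singleton_eq_bot, sub_eq_zero] at h
    exact hx σ hσ h
  refine (Set.finite_iUnion fun σ : Gal(L/ℚ) => (Nat.divisors (N σ)).finite_toSet).subset ?_
  rintro p ⟨hp, P, hP, hpP, hI⟩
  obtain ⟨τ, hτ⟩ := Subgroup.ne_bot_iff_exists_ne_one.1 hI
  obtain ⟨σ, hσ⟩ := τ
  have hσ1 : σ ≠ 1 := fun h => hτ (Subtype.ext h)
  rw [Set.mem_iUnion]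
  refine ⟨σ, ?_⟩
  rw [Finset.mem_coe, Nat.mem_divisors]
  refine ⟨dvd_of_mem hP hp hpP ?_, hN σ hσ1⟩
  refine (Ideal.span_singleton_le_iff_mem (I := P)).2 ?_ (Ideal.absNorm_mem _)
  exact hσ (x σ)

end Pool.Agent.FW
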