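import Pool.Agent.Lib.FW.SpecI
import Pool.Agent.Lib.ZD.Deg

/-!
# Convergence of the sums over the primes
-/

open scoped Pointwise Topology
open Filter Asymptotics IsDedekindDomain NumberField

noncomputable section

namespace Pool.Agent.FW

open Pool.Agent.MuZ

namespace ISumAux

variable {E : Type} [Field E] [NumberField E]

private theorem data (v : HeightOneSpectrum (𝓞 E)) :
    (ZD.nm v).minFac.Prime ∧
      v.asIdeal ∈ Ideal.primesOver (Ideal.span {(((ZD.nm v).minFac : ℕ) : ℤ)}) (𝓞 E) ∧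
      (¬ (ZD.nm v).Prime → (ZD.nm v).minFac ^ 2 ≤ ZD.nm v) := by
  obtain ⟨p, f, hp, hf, h1, h2⟩ := ZD.nm_eq v
  have h3 : (ZD.nm v).minFac = p := by
    rw [h1]
    exact hp.pow_minFac hf.ne'
  rw [h3]
  refine ⟨hp, ⟨v.isPrime, h2⟩, fun h => ?_⟩
  rw [h1]
  refine Nat.pow_le_pow_right hp.pos ?_
  by_contra h4
  have h5 : f = 1 := by omega
  rw [h1, h5, pow_one] at h
  exact h hp

end ISumAux

open ISumAux

theorem tISum : S_ISum := by
  classical
  intro E _ _
  refine ⟨fun s hs => ?_, ?_, fun p => ?_⟩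
  · have h := ZD.summable_all (K := E) (x := s - 1) (by linarith)
    refine h.congr fun v => ?_
    rw [add_sub_cancel]
    rfl
  · let π : {v : HeightOneSpectrum (𝓞 E) // ¬ (Ideal.absNorm v.asIdeal).Prime} → ℕ :=
      fun v => (ZD.nm v.1).minFac
    have hs2 : Summable fun n : ℕ => ((n : ℝ) ^ 2)⁻¹ := by
      have := Real.summable_nat_pow_inv (p := 2)
      exact this.2 (by norm_num)
    refine summable_of_sum_le (c := Module.finrank ℚ E * ∑' n : ℕ, ((n : ℝ) ^ 2)⁻¹)
      (fun v => inv_nonneg.2 (Nat.cast_nonneg _)) fun T => ?_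
    calc ∑ v ∈ T, ((Ideal.absNorm v.1.asIdeal : ℕ) : ℝ)⁻¹
        ≤ ∑ v ∈ T, ((π v : ℝ) ^ 2)⁻¹ := by
          refine Finset.sum_le_sum fun v _ => ?_
          obtain ⟨h1, _, h3⟩ := data v.1
          have h4 := h3 v.2
          have h5 : (0 : ℝ) < (π v : ℝ) ^ 2 := by
            have : 0 < (ZD.nm v.1).minFac := h1.pos
            have h6 : (0 : ℝ) < (π v : ℝ) := by exact_mod_cast this
            positivity
          refine inv_anti₀ h5 ?_
          exact_mod_cast h4
      _ = ∑ n ∈ T.image π, ∑ v ∈ T.filter (fun v => π v = n), ((π v : ℝ) ^ 2)⁻¹ :=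
          (Finset.sum_fiberwise_of_maps_to (fun v hv => Finset.mem_image_of_mem π hv) _).symm
      _ ≤ ∑ n ∈ T.image π, (Module.finrank ℚ E : ℝ) * ((n : ℝ) ^ 2)⁻¹ := by
          refine Finset.sum_le_sum fun n hn => ?_
          obtain ⟨v₀, hv₀, rfl⟩ := Finset.mem_image.1 hn
          have h1 : ∑ v ∈ T.filter (fun v => π v = π v₀), ((π v : ℝ) ^ 2)⁻¹ =
              ((T.filter (fun v => π v = π v₀)).card : ℝ) * ((π v₀ : ℝ) ^ 2)⁻¹ := by
            rw [Finset.sum_congr rfl (g := fun _ => ((π v₀ : ℝ) ^ 2)⁻¹) fun v hv => by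
              rw [(Finset.mem_filter.1 hv).2], Finset.sum_const, nsmul_eq_mul]
          rw [h1]
          refine mul_le_mul_of_nonneg_right ?_ (by positivity)
          have h2 := ZD.ncard_le (K := E) (π v₀) (data v₀.1).1
          have h3 : (T.filter (fun v => π v = π v₀)).card ≤
              (Ideal.primesOver (Ideal.span {((π v₀ : ℕ) : ℤ)}) (𝓞 E)).ncard := by
            rw [Set.ncard_eq_toFinset_card _ h2.1]
            refine Finset.card_le_card_of_injOn (fun v => v.1.asIdeal) ?_ ?_
            · intro v hv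
              have h4 := (Finset.mem_filter.1 (Finset.mem_coe.1 hv)).2
              rw [Set.Finite.coe_toFinset, ← h4]
              exact (data v.1).2.1
            · intro v _ w _ h
              exact Subtype.ext (HeightOneSpectrum.ext h)
          exact_mod_cast h3.trans h2.2
      _ = Module.finrank ℚ E * ∑ n ∈ T.image π, ((n : ℝ) ^ 2)⁻¹ := by rw [Finset.mul_sum]
      _ ≤ Module.finrank ℚ E * ∑' n : ℕ, ((n : ℝ) ^ 2)⁻¹ :=
          mul_le_mul_of_nonneg_left (hs2.sum_le_tsum _ fun n _ => by positivity)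
            (Nat.cast_nonneg _)
  · have hfr : 0 < Module.finrank ℚ E := Module.finrank_pos
    unfold nP1
    by_cases hp : p = 0
    · subst hp
      have h1 : Subsingleton {v : Ideal (𝓞 E) // v.IsPrime ∧ Ideal.absNorm v = 0} := by
        constructor
        rintro ⟨v, _, hv⟩ ⟨w, _, hw⟩
        rw [Ideal.absNorm_eq_zero_iff] at hv hw
        exact Subtype.ext (hv.trans hw.symm)
      exact (Finite.card_le_one_iff_subsingleton.2 h1).trans hfr
    · have hne : ∀ v : {v : Ideal (𝓞 E) // v.IsPrime ∧ Ideal.absNorm v = p}, v.1 ≠ ⊥ := by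
        rintro ⟨v, _, hv⟩ h
        have h' : v = ⊥ := h
        rw [h', Ideal.absNorm_bot] at hv
        exact hp hv.symm
      let q : {v : Ideal (𝓞 E) // v.IsPrime ∧ Ideal.absNorm v = p} → HeightOneSpectrum (𝓞 E) :=
        fun v => ⟨v.1, v.2.1, hne v⟩
      have hq : ∀ v, ZD.nm (q v) = p := fun v => v.2.2
      by_cases hemp : IsEmpty {v : Ideal (𝓞 E) // v.IsPrime ∧ Ideal.absNorm v = p}
      · rw [Nat.card_of_isEmpty]
        exact Nat.zero_le _
      · rw [not_isEmpty_iff] at hemp
        obtain ⟨v₀⟩ := hemp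
        have h1 : p.minFac.Prime := by
          rw [← hq v₀]
          exact (data (q v₀)).1
        obtain ⟨h2, h3⟩ := ZD.ncard_le (K := E) p.minFac h1
        refine le_trans ?_ h3
        have : Finite (Ideal.primesOver (Ideal.span {((p.minFac : ℕ) : ℤ)}) (𝓞 E)) := h2
        refine Nat.card_le_card_of_injective
          (β := Ideal.primesOver (Ideal.span {((p.minFac : ℕ) : ℤ)}) (𝓞 E))
          (fun v => ⟨v.1, ?_⟩) ?_
        · have h4 := (data (q v)).2.1
          rw [hq v] at h4
          exact h4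
        · intro v w h
          exact Subtype.ext (Subtype.mk.inj h)

end Pool.Agent.FW
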